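import Pool.Agent.W2helper66.XP.Stm

/-! Project XP: assembly. -/

namespace Pool.Agent.W2helper66.XP

open Finset

theorem cast_ne {k : ℕ} {a b : ℕ} (ha : a ∈ Finset.Icc 1 (2 * k)) (hb : b ∈ Finset.Icc 1 (2 * k))
    (hab : a ≠ b) : (a : ZMod (4 * k + 1)) ≠ (b : ZMod (4 * k + 1)) := by
  rw [Finset.mem_Icc] at ha hb
  intro h
  rw [ZMod.natCast_eq_natCast_iff', Nat.mod_eq_of_lt (by omega), Nat.mod_eq_of_lt (by omega)] at h
  exact hab h

theorem cast_ne_neg {k : ℕ} {a b : ℕ} (ha : a ∈ Finset.Icc 1 (2 * k))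
    (hb : b ∈ Finset.Icc 1 (2 * k)) : (a : ZMod (4 * k + 1)) ≠ -(b : ZMod (4 * k + 1)) := by
  rw [Finset.mem_Icc] at ha hb
  intro h
  have h2 : ((a + b : ℕ) : ZMod (4 * k + 1)) = 0 := by
    push_cast
    rw [h]; ring
  rw [ZMod.natCast_eq_zero_iff] at h2
  have := Nat.le_of_dvd (by omega) h2
  omega

theorem cast_ne_zero {k : ℕ} {a : ℕ} (ha : a ∈ Finset.Icc 1 (2 * k)) :
    (a : ZMod (4 * k + 1)) ≠ 0 := by
  rw [Finset.mem_Icc] at ha
  intro h
  rw [ZMod.natCast_eq_zero_iff] at h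
  have := Nat.le_of_dvd (by omega) h
  omega

/-- the injective family of values covers all neighbours -/
theorem side {p m : ℕ} [NeZero p] (S : Finset ℕ) (hS : S.card = 2 * m)
    (F : Option (Fin m × Fin 4) → ZMod p → ZMod p)
    (hd : ∀ c v, F c v ≠ v → ∃ a ∈ S, F c v = v + (a : ZMod p) ∨ F c v = v - (a : ZMod p))
    (hi : ∀ v, Function.Injective (fun c => F c v)) (v w : ZMod p)
    (hw : w = v ∨ ∃ a ∈ S, w = v + (a : ZMod p) ∨ w = v - (a : ZMod p)) :
    ∃ c, F c v = w := by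
  classical
  set N : Finset (ZMod p) := insert v ((S.image fun a : ℕ => v + (a : ZMod p)) ∪
    (S.image fun a : ℕ => v - (a : ZMod p))) with hN
  have hNc : N.card ≤ 4 * m + 1 := by
    have h1 := Finset.card_insert_le v ((S.image fun a : ℕ => v + (a : ZMod p)) ∪
      (S.image fun a : ℕ => v - (a : ZMod p)))
    have h2 := Finset.card_union_le (S.image fun a : ℕ => v + (a : ZMod p))
      (S.image fun a : ℕ => v - (a : ZMod p))
    have h3 : (S.image fun a : ℕ => v + (a : ZMod p)).card ≤ S.card := Finset.card_image_le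
    have h4 : (S.image fun a : ℕ => v - (a : ZMod p)).card ≤ S.card := Finset.card_image_le
    rw [← hN] at h1
    omega
  have hsub : (Finset.univ.image fun c => F c v) ⊆ N := by
    intro u hu
    rw [Finset.mem_image] at hu
    obtain ⟨c, _, rfl⟩ := hu
    by_cases h : F c v = v
    · rw [h]; exact Finset.mem_insert_self _ _
    · obtain ⟨a, ha, h | h⟩ := hd c v h
      · rw [h]
        exact Finset.mem_insert_of_mem (Finset.mem_union_left _ (Finset.mem_image_of_mem _ ha))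
      · rw [h]
        exact Finset.mem_insert_of_mem (Finset.mem_union_right _
          (Finset.mem_image_of_mem (fun a : ℕ => v - (a : ZMod p)) ha))
  have hcard : (Finset.univ.image fun c => F c v).card = 4 * m + 1 := by
    rw [Finset.card_image_of_injective _ (hi v), Finset.card_univ]
    simp [Fintype.card_option, Fintype.card_prod]
    ring
  have heq := Finset.eq_of_subset_of_card_le hsub (by omega)
  have hwN : w ∈ N := by
    rcases hw with h | ⟨a, ha, h | h⟩
    · rw [h]; exact Finset.mem_insert_self _ _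
    · rw [h]
      exact Finset.mem_insert_of_mem (Finset.mem_union_left _ (Finset.mem_image_of_mem _ ha))
    · rw [h]
      exact Finset.mem_insert_of_mem (Finset.mem_union_right _
        (Finset.mem_image_of_mem (fun a : ℕ => v - (a : ZMod p)) ha))
  rw [← heq, Finset.mem_image] at hwN
  obtain ⟨c, _, hc⟩ := hwN
  exact ⟨c, hc⟩

/-- enumeration of a set of 2m classes -/
theorem enum {k m : ℕ} (S : Finset ℕ) (hS : S ⊆ Finset.Icc 1 (2 * k)) (hc : S.card = 2 * m) :
    ∃ a a' : Fin m → ℕ, (∀ j, a j ∈ S) ∧ (∀ j, a' j ∈ S) ∧ (∀ i j, a i ≠ a' j) ∧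
      (∀ i j, i ≠ j → a i ≠ a j) ∧ (∀ i j, i ≠ j → a' i ≠ a' j) := by
  classical
  have hcard : Fintype.card (Fin m × Fin 2) = Fintype.card S := by
    rw [Fintype.card_prod, Fintype.card_fin, Fintype.card_fin, Fintype.card_coe, hc]; ring
  let e : Fin m × Fin 2 ≃ S := Fintype.equivOfCardEq hcard
  refine ⟨fun j => (e (j, 0)).1, fun j => (e (j, 1)).1, fun j => (e (j, 0)).2,
    fun j => (e (j, 1)).2, ?_, ?_, ?_⟩
  · intro i j h
    have := e.injective (Subtype.ext h)
    simp at this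
  · intro i j hij h
    have := e.injective (Subtype.ext h)
    simp at this
    exact hij this
  · intro i j hij h
    have := e.injective (Subtype.ext h)
    simp at this
    exact hij this

/-- exchange of the colours 1 and 2 -/
def sw (i : Fin 4) : Fin 4 := if i = 1 then 2 else if i = 2 then 1 else i

theorem sw_sw (i : Fin 4) : sw (sw i) = i := by
  fin_cases i <;> rfl

theorem corner_sw {p m : ℕ} (s t x : Fin m → ZMod p) (j : Fin m) (i : Fin 4) :
    corner t s x j (sw i) = corner s t x j i := by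
  unfold corner sw
  fin_cases i <;> simp <;> ring

/-- transport of colours -/
def swO {m : ℕ} : Option (Fin m × Fin 4) → Option (Fin m × Fin 4)
  | none => none
  | some (j, i) => some (j, sw i)

theorem swO_swO {m : ℕ} (c : Option (Fin m × Fin 4)) : swO (swO c) = c := by
  rcases c with _ | ⟨j, i⟩
  · rfl
  · simp [swO, sw_sw]

theorem swO_inj {m : ℕ} : Function.Injective (swO (m := m)) :=
  Function.LeftInverse.injective swO_swO

/-- the involution of the whole graph -/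
noncomputable def glue {p : ℕ} {C : Type} (F1 F2 : C → ZMod p → ZMod p) (c : C)
    (v : ZMod p × Fin 2) : ZMod p × Fin 2 :=
  open Classical in
  if v.2 = 0 then (if F1 c v.1 = v.1 then (v.1, 1) else (F1 c v.1, 0))
  else (if F2 c v.1 = v.1 then (v.1, 0) else (F2 c v.1, 1))

theorem glue_invol {p : ℕ} {C : Type} (F1 F2 : C → ZMod p → ZMod p)
    (h1 : ∀ c v, F1 c (F1 c v) = v) (h2 : ∀ c v, F2 c (F2 c v) = v)
    (h12 : ∀ c v, F1 c v = v ↔ F2 c v = v) (c : C) (v : ZMod p × Fin 2) :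
    glue F1 F2 c (glue F1 F2 c v) = v := by
  obtain ⟨v, l⟩ := v
  have hl : l = 0 ∨ l = 1 := by omega
  rcases hl with rfl | rfl
  · by_cases h : F1 c v = v
    · have h' := (h12 c v).1 h
      simp [glue, h, h']
    · have hne : ¬ v = F1 c v := fun hh => h hh.symm
      simp [glue, h, h1, hne]
  · by_cases h : F2 c v = v
    · have h' := (h12 c v).2 h
      simp [glue, h, h']
    · have hne : ¬ v = F2 c v := fun hh => h hh.symm
      simp [glue, h, h2, hne]

theorem glue_inj {p : ℕ} {C : Type} (F1 F2 : C → ZMod p → ZMod p)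
    (h1 : ∀ v, Function.Injective (fun c => F1 c v))
    (h2 : ∀ v, Function.Injective (fun c => F2 c v)) (v : ZMod p × Fin 2) :
    Function.Injective (fun c => glue F1 F2 c v) := by
  obtain ⟨v, l⟩ := v
  have hl : l = 0 ∨ l = 1 := by omega
  intro c c' hcc
  rcases hl with rfl | rfl
  · by_cases h : F1 c v = v <;> by_cases h' : F1 c' v = v <;> simp [glue, h, h'] at hcc
    · exact h1 v (by simp only; rw [h, h'])
    · exact h1 v (by simp only; exact hcc)
  · by_cases h : F2 c v = v <;> by_cases h' : F2 c' v = v <;> simp [glue, h, h'] at hcc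
    · exact h2 v (by simp only; rw [h, h'])
    · exact h2 v (by simp only; exact hcc)

theorem min_val {p : ℕ} [NeZero p] (S : Finset ℕ) (v w : ZMod p)
    (h : min (v - w).val (w - v).val ∈ S) :
    ∃ a ∈ S, w = v + (a : ZMod p) ∨ w = v - (a : ZMod p) := by
  refine ⟨_, h, ?_⟩
  rcases min_choice (v - w).val (w - v).val with h' | h'
  · right; rw [h', ZMod.natCast_zmod_val]; ring
  · left; rw [h', ZMod.natCast_zmod_val]; ring

theorem final (hN : NUL) (hL : LAYER) (hE : EC) (k : ℕ) (hk : Even k) (hp : (4 * k + 1).Prime)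
    (S : Finset ℕ) (hS : S ⊆ Finset.Icc 1 (2 * k)) (hSc : S.card = k)
    (G : SimpleGraph (ZMod (4 * k + 1) × Fin 2))
    (hG : ∀ p q : ZMod (4 * k + 1) × Fin 2, G.Adj p q ↔
      ((p.2 = 0 ∧ q.2 = 0 ∧ min (p.1 - q.1).val (q.1 - p.1).val ∈ S) ∨
       (p.2 = 1 ∧ q.2 = 1 ∧
          min (p.1 - q.1).val (q.1 - p.1).val ∈ Finset.Icc 1 (2 * k) \ S) ∨
       (p.1 = q.1 ∧ p.2 ≠ q.2))) :
    ∃ c : Sym2 (ZMod (4 * k + 1) × Fin 2) → Fin (2 * k + 1),
      ∀ e ∈ G.edgeSet, ∀ f ∈ G.edgeSet, e ≠ f →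
        (∃ v, v ∈ e ∧ v ∈ f) → c e ≠ c f := by
  classical
  have : Fact (4 * k + 1).Prime := ⟨hp⟩
  obtain ⟨m, hm⟩ := hk
  set T : Finset ℕ := Finset.Icc 1 (2 * k) \ S with hT
  have hTS : T ⊆ Finset.Icc 1 (2 * k) := Finset.sdiff_subset
  have hTc : T.card = k := by
    rw [hT, Finset.card_sdiff_of_subset hS, Nat.card_Icc, hSc]; omega
  have hdis : ∀ a ∈ S, ∀ b ∈ T, a ≠ b := by
    intro a ha b hb h
    rw [hT, Finset.mem_sdiff] at hb
    exact hb.2 (h ▸ ha)
  obtain ⟨a, a', ha, ha', haa', hai, hai'⟩ := enum S hS (show S.card = 2 * m by omega)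
  obtain ⟨b, b', hb, hb', hbb', hbi, hbi'⟩ := enum T hTS (show T.card = 2 * m by omega)
  let s : Fin m → ZMod (4 * k + 1) := fun j => (a j : ZMod (4 * k + 1))
  let s' : Fin m → ZMod (4 * k + 1) := fun j => (a' j : ZMod (4 * k + 1))
  let t : Fin m → ZMod (4 * k + 1) := fun j => (b j : ZMod (4 * k + 1))
  let t' : Fin m → ZMod (4 * k + 1) := fun j => (b' j : ZMod (4 * k + 1))
  obtain ⟨x, hx⟩ := hN (4 * k + 1) m (by omega)
    (fun j i => (if i = 1 ∨ i = 3 then s j else 0) + (if i = 2 ∨ i = 3 then t j else 0))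
  have hx1 : ∀ i j, i ≠ j → ∀ u v, corner s t x i u ≠ corner s t x j v := by
    intro i j hij u v h
    refine hx i j hij u v ?_
    unfold corner at h
    rw [← add_assoc, ← add_assoc]
    exact h
  have hx2 : ∀ i j, i ≠ j → ∀ u v, corner t s x i u ≠ corner t s x j v := by
    intro i j hij u v h
    have e1 := corner_sw s t x i (sw u)
    have e2 := corner_sw s t x j (sw v)
    rw [sw_sw] at e1 e2
    rw [e1, e2] at h
    exact hx1 i j hij _ _ h
  have gen : ∀ (U : Finset ℕ) (c c' : Fin m → ℕ), U ⊆ Finset.Icc 1 (2 * k) → (∀ j, c j ∈ U) →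
      (∀ j, c' j ∈ U) → (∀ i j, c i ≠ c' j) → (∀ i j, i ≠ j → c i ≠ c j) →
      (∀ i j, i ≠ j → c' i ≠ c' j) →
      (∀ j, (c j : ZMod (4 * k + 1)) ≠ 0 ∧ (c' j : ZMod (4 * k + 1)) ≠ 0 ∧
        (c' j : ZMod (4 * k + 1)) ≠ (c j : ZMod (4 * k + 1)) ∧
        (c' j : ZMod (4 * k + 1)) ≠ - (c j : ZMod (4 * k + 1))) ∧
      (∀ i j, i ≠ j → (c i : ZMod (4 * k + 1)) ≠ (c j : ZMod (4 * k + 1)) ∧
        (c i : ZMod (4 * k + 1)) ≠ - (c j : ZMod (4 * k + 1)) ∧
        (c' i : ZMod (4 * k + 1)) ≠ (c' j : ZMod (4 * k + 1)) ∧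
        (c' i : ZMod (4 * k + 1)) ≠ - (c' j : ZMod (4 * k + 1)) ∧
        (c i : ZMod (4 * k + 1)) ≠ (c' j : ZMod (4 * k + 1)) ∧
        (c i : ZMod (4 * k + 1)) ≠ - (c' j : ZMod (4 * k + 1))) := by
    intro U c c' hU hc hc' hcc hci hci'
    refine ⟨fun j => ⟨cast_ne_zero (hU (hc j)), cast_ne_zero (hU (hc' j)),
      cast_ne (hU (hc' j)) (hU (hc j)) (fun h => hcc j j h.symm),
      cast_ne_neg (hU (hc' j)) (hU (hc j))⟩, fun i j hij =>
      ⟨cast_ne (hU (hc i)) (hU (hc j)) (hci i j hij), cast_ne_neg (hU (hc i)) (hU (hc j)),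
      cast_ne (hU (hc' i)) (hU (hc' j)) (hci' i j hij), cast_ne_neg (hU (hc' i)) (hU (hc' j)),
      cast_ne (hU (hc i)) (hU (hc' j)) (hcc i j), cast_ne_neg (hU (hc i)) (hU (hc' j))⟩⟩
  obtain ⟨gs1, gs2⟩ := gen S a a' hS ha ha' haa' hai hai'
  obtain ⟨gt1, gt2⟩ := gen T b b' hTS hb hb' hbb' hbi hbi'
  have hst : ∀ j, t j ≠ 0 ∧ t j ≠ s j ∧ t j ≠ - s j := fun j =>
    ⟨cast_ne_zero (hTS (hb j)), cast_ne (hTS (hb j)) (hS (ha j)) (hdis _ (ha j) _ (hb j)).symm,
      cast_ne_neg (hTS (hb j)) (hS (ha j))⟩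
  have hts : ∀ j, s j ≠ 0 ∧ s j ≠ t j ∧ s j ≠ - t j := fun j =>
    ⟨cast_ne_zero (hS (ha j)), cast_ne (hS (ha j)) (hTS (hb j)) (hdis _ (ha j) _ (hb j)),
      cast_ne_neg (hS (ha j)) (hTS (hb j))⟩
  obtain ⟨F1, f11, f12, f13, f14, f15⟩ := hL (4 * k + 1) m s s' t x gs1 gs2 hst hx1
  obtain ⟨F0, f01, f02, f03, f04, f05⟩ := hL (4 * k + 1) m t t' s x gt1 gt2 hts hx2
  let F2 : Option (Fin m × Fin 4) → ZMod (4 * k + 1) → ZMod (4 * k + 1) := fun c => F0 (swO c)
  have f21 : ∀ c v, F2 c (F2 c v) = v := fun c v => f01 _ v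
  have f25 : ∀ v, Function.Injective (fun c => F2 c v) := fun v c c' h =>
    swO_inj (f05 v h)
  have hfix : ∀ c v, F1 c v = v ↔ F2 c v = v := by
    intro c v
    rcases c with _ | ⟨j, i⟩
    · rw [f12]
      change _ ↔ F0 none v = v
      rw [f02]
      constructor
      · intro h j i
        rw [← sw_sw i, corner_sw]
        exact h j _
      · intro h j i
        rw [← corner_sw]
        exact h j _
    · rw [f13]
      change _ ↔ F0 (some (j, sw i)) v = v
      rw [f03, corner_sw]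
  have d1 : ∀ c v, F1 c v ≠ v → ∃ u ∈ S, F1 c v = v + (u : ZMod (4 * k + 1)) ∨
      F1 c v = v - (u : ZMod (4 * k + 1)) := by
    intro c v h
    obtain ⟨j, h | h | h | h⟩ := f14 c v h
    · exact ⟨a j, ha j, Or.inl h⟩
    · exact ⟨a j, ha j, Or.inr h⟩
    · exact ⟨a' j, ha' j, Or.inl h⟩
    · exact ⟨a' j, ha' j, Or.inr h⟩
  have d2 : ∀ c v, F2 c v ≠ v → ∃ u ∈ T, F2 c v = v + (u : ZMod (4 * k + 1)) ∨
      F2 c v = v - (u : ZMod (4 * k + 1)) := by
    intro c v h
    obtain ⟨j, h | h | h | h⟩ := f04 (swO c) v h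
    · exact ⟨b j, hb j, Or.inl h⟩
    · exact ⟨b j, hb j, Or.inr h⟩
    · exact ⟨b' j, hb' j, Or.inl h⟩
    · exact ⟨b' j, hb' j, Or.inr h⟩
  have hsur : ∀ v w, G.Adj v w → ∃ c, glue F1 F2 c v = w := by
    rintro ⟨v, l⟩ ⟨w, l'⟩ hadj
    rcases (hG _ _).1 hadj with ⟨h1, h2, h3⟩ | ⟨h1, h2, h3⟩ | ⟨h1, h2⟩
    · simp only at h1 h2 h3
      subst h1 h2
      have hmm := min_val S v w h3
      obtain ⟨c, hc⟩ := side S (show S.card = 2 * m by omega) F1 d1 f15 v w (Or.inr hmm)
      have hwv : w ≠ v := by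
        obtain ⟨u, hu, h | h⟩ := hmm
        · rw [h]; intro h'; exact cast_ne_zero (hS hu) (by simpa using h')
        · rw [h]; intro h'; exact cast_ne_zero (hS hu) (by simpa using h')
      exact ⟨c, by simp [glue, hc, hwv]⟩
    · simp only at h1 h2 h3
      subst h1 h2
      have hmm := min_val T v w h3
      obtain ⟨c, hc⟩ := side T (show T.card = 2 * m by omega) F2 d2 f25 v w (Or.inr hmm)
      have hwv : w ≠ v := by
        obtain ⟨u, hu, h | h⟩ := hmm
        · rw [h]; intro h'; exact cast_ne_zero (hTS hu) (by simpa using h')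
        · rw [h]; intro h'; exact cast_ne_zero (hTS hu) (by simpa using h')
      exact ⟨c, by simp [glue, hc, hwv]⟩
    · simp only at h1 h2
      subst h1
      have hl : l = 0 ∨ l = 1 := by omega
      rcases hl with rfl | rfl
      · have hl' : l' = 1 := by omega
        subst hl'
        obtain ⟨c, hc⟩ := side S (show S.card = 2 * m by omega) F1 d1 f15 v v (Or.inl rfl)
        exact ⟨c, by simp [glue, hc]⟩
      · have hl' : l' = 0 := by omega
        subst hl'
        obtain ⟨c, hc⟩ := side T (show T.card = 2 * m by omega) F2 d2 f25 v v (Or.inl rfl)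
        exact ⟨c, by simp [glue, hc]⟩
  obtain ⟨col, hcol⟩ := hE (ZMod (4 * k + 1) × Fin 2) (Option (Fin m × Fin 4)) G (glue F1 F2)
    (glue_invol F1 F2 f11 f21 hfix) (glue_inj F1 F2 f15 f25) hsur
  have hcard : Fintype.card (Option (Fin m × Fin 4)) = Fintype.card (Fin (2 * k + 1)) := by
    rw [Fintype.card_option, Fintype.card_prod, Fintype.card_fin, Fintype.card_fin,
      Fintype.card_fin]
    omega
  let e := Fintype.equivOfCardEq hcard
  exact ⟨fun z => e (col z), fun z hz f hf hzf hv h => hcol z hz f hf hzf hv (e.injective h)⟩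

end Pool.Agent.W2helper66.XP
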