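import Mathlib

/-!
Project XP (helper66), problem MP_45dba8_co: the extended Petersen graph XP(2(4k+1),S) is Class 1 for
every k-subset S of {1..2k} when k is even and 4k+1 is prime.  Statements of the pieces; the full
paper proofs are in the comments.
-/

namespace Pool.Agent.W2helper66.XP

/-! ### Packing by the divided difference functional -/

/-- UNIQ.  Proof: any two values differ by at least 8, so the numbers q i = c i / 8 are distinct; they
lie in [0, m-1], so i to q i is a bijection.  Write c i = 8 q i + r i, r i < 8.  For q j = q i + 1 the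
distance is at least 8, so r i <= r j; the top one (q = m-1) has r = 0 because c <= 8(m-1); hence all
r i = 0 and c i = 8 q i.  If q j = q i + 1 then c j = c i + 8, so i < j is impossible (it needs 9) and
j < i.  So the inverse bijection q to i is strictly decreasing, thus i = m-1-q. -/
def UNIQ : Prop := ∀ (m : ℕ) (c : Fin m → ℕ), (∀ i, c i ≤ 8 * (m - 1)) →
  (∀ i j : Fin m, i < j → c j + 8 ≤ c i ∨ c i + 9 ≤ c j) →
  ∀ i : Fin m, c i = 8 * (m - 1 - (i : ℕ))

/-- the weight of a point of {0..d}^m in the divided difference functional -/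
noncomputable def wt (p m d : ℕ) (c : Fin m → ℕ) : ZMod p :=
  ∏ i : Fin m, ∏ e ∈ (Finset.range (d + 1)).erase (c i), ((c i : ZMod p) - (e : ZMod p))⁻¹

/-- LAM.  Proof: by linearity h is a monomial, h = prod x_i^{e_i} with sum e_i < m d, so some
e_{i0} < d.  The sum over the grid factors (Finset.prod_univ_sum) into
prod_i (sum_{c = 0}^{d} c^{e_i} / prod_{e <> c} (c - e)), and the factor i0 is zero (Lagrange
interpolation: coefficient of x^d of the polynomial x^{e_{i0}} of degree < d; Mathlib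
Lagrange.coeff_eq_sum / leadingCoeff_eq_sum or sum of basis polynomials; nodes 0..d distinct mod p as
d < p). -/
def LAM : Prop := ∀ (p : ℕ) [Fact p.Prime] (m d : ℕ), d < p →
  ∀ h : MvPolynomial (Fin m) (ZMod p), h.totalDegree < m * d →
    ∑ c ∈ Fintype.piFinset (fun _ : Fin m => Finset.range (d + 1)),
      MvPolynomial.eval (fun i => ((c i : ℕ) : ZMod p)) h * wt p m d c = 0

/-- NUL.  Proof from UNIQ and LAM: m <= 1 trivial.  Let d = 8(m-1) < p,
f = prod_{i<j} prod_{a,b : Fin 4} (X_i - X_j + C (D i a - D j b)) and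
G = prod_{i<j} prod_{l = -7..8} (X_i - X_j + C l), both products of 8 m (m-1) = m d factors with the
same linear parts, so f - G has total degree < m d (induction on the product: if
totalDegree (P-Q) < N, P and Q of degree <= N, then (P (L + C a) - Q (L + C b)) has degree < N+1).
Suppose no x works: then eval f = 0 everywhere, so by LAM for h = f - G the grid sum of G is zero.
At a grid point c (values in 0..8(m-1)) with G(c) <> 0 mod p: for i<j, c_i - c_j + l <> 0 for all l in
[-7,8], so c_i - c_j >= 8 or c_j - c_i >= 9, and UNIQ gives c = c*, c*_i = 8(m-1-i).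
At c* the factors are 8(j-i)+l in [1, 8m], nonzero mod p as 8m < p; the weight is nonzero as well
(differences of distinct numbers in 0..d, d < p).  So the grid sum is G(c*) wt(c*) <> 0,
contradiction. -/
def NUL : Prop := ∀ (p : ℕ) [Fact p.Prime] (m : ℕ), 8 * m < p → ∀ D : Fin m → Fin 4 → ZMod p,
  ∃ x : Fin m → ZMod p, ∀ i j : Fin m, i ≠ j → ∀ a b : Fin 4, x i + D i a ≠ x j + D j b

/-! ### Hamiltonian paths -/

/-- directed edges of the modified cycle: all v to v+1 except at v = 0, b, c, and 0 to b, 1 to b+1 -/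
def EdgeA (n : ℕ) (b c v w : ZMod n) : Prop :=
  (w = v + 1 ∧ v ≠ 0 ∧ v ≠ b ∧ v ≠ c) ∨ (v = 0 ∧ w = b) ∨ (v = 1 ∧ w = b + 1)

/-- directed edges of the second modified cycle: v to v+1 except at v = 0, u, and 1 to u+1 -/
def EdgeB (n : ℕ) (u v w : ZMod n) : Prop :=
  (w = v + 1 ∧ v ≠ 0 ∧ v ≠ u) ∨ (v = 1 ∧ w = u + 1)

/-- PATHA.  Proof: if b < c take the sequence c, c-1, ..., b+1, 1, 2, ..., b, n (= 0), n-1, ..., c+1;
if c < b take c, c-1, ..., 1, b+1, b+2, ..., n (= 0), b, b-1, ..., c+1. -/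
def PATHA : Prop := ∀ n b c : ℕ, 2 ≤ b → b + 2 ≤ n → 2 ≤ c → c + 2 ≤ n → b ≠ c →
  ∃ β : ℕ → ZMod n, (∀ i j, i < n → j < n → β i = β j → i = j) ∧
    β 0 = (c : ZMod n) ∧ β (n - 1) = (c : ZMod n) + 1 ∧
    ∀ i, i + 1 < n → EdgeA n b c (β i) (β (i + 1)) ∨ EdgeA n b c (β (i + 1)) (β i)

/-- PATHB.  Proof: the sequence n (= 0), n-1, ..., u+1, 1, 2, ..., u. -/
def PATHB : Prop := ∀ n u : ℕ, 2 ≤ u → u + 2 ≤ n →
  ∃ β : ℕ → ZMod n, (∀ i j, i < n → j < n → β i = β j → i = j) ∧
    β 0 = 0 ∧ β (n - 1) = (u : ZMod n) ∧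
    ∀ i, i + 1 < n → EdgeB n u (β i) (β (i + 1)) ∨ EdgeB n u (β (i + 1)) (β i)

/-- INV.  Proof: β restricted to i < n is a bijection onto ZMod n (injective, same cardinality); let
ι v be its inverse.  g 1 exchanges β (2i) and β (2i+1) and fixes β (n-1) (n odd, so n-1 is even);
g 0 exchanges β (2i+1) and β (2i+2) and fixes β 0. -/
def INV : Prop := ∀ n : ℕ, Odd n → 3 ≤ n → ∀ β : ℕ → ZMod n,
  (∀ i j, i < n → j < n → β i = β j → i = j) →
  ∃ g : Fin 2 → ZMod n → ZMod n, (∀ i v, g i (g i v) = v) ∧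
    (∀ v, g 0 v = v ↔ v = β 0) ∧ (∀ v, g 1 v = v ↔ v = β (n - 1)) ∧
    (∀ i v, g i v ≠ v → ∃ j, j + 1 < n ∧
      ((v = β j ∧ g i v = β (j + 1)) ∨ (v = β (j + 1) ∧ g i v = β j))) ∧
    (∀ v, g 0 v ≠ g 1 v)

/-- LOC (for the proof PATHA, PATHB, INV may be used as hypotheses: prove PATHA, PATHB, INV imply LOC).
Proof: scale: v = x + s v'.  Put c = (y-x)/s, b = s'/s or -s'/s chosen with b <> c; then b, c are not
0, 1, -1 (as classes), so their values lie in [2, p-2].
g 2, g 3: the two involutions (INV) of the path PATHA for (p, b, c) (ends c, c+1), transported by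
v' to x + s v'.  g 0, g 1: the path PATHB for (p, u), u = 1/b (ends 0 and u), transported by
z to x + s b z (so the ends are x and x + s).  In the coordinate v' the edges of the first path are
{v,v+1}, v <> 0,b,c, and {0,b}, {1,b+1}; those of the second are {v,v+b}, v <> 0, 1, and {b, b+1}
(z = 1, u+1).  These two sets are disjoint (1 <> b, -b; and {0,b}, {1,1+b}, {b,b+1} are excluded on
the other side) and neither contains {0,1} or {c,c+1}. -/
def LOC : Prop := ∀ (p : ℕ) [Fact p.Prime] (s s' x y : ZMod p), s ≠ 0 → s' ≠ 0 → s' ≠ s → s' ≠ -s →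
  y ≠ x → y ≠ x + s → x ≠ y + s →
  ∃ g : Fin 4 → ZMod p → ZMod p,
    (∀ i v, g i (g i v) = v) ∧
    (∀ v, g 0 v = v ↔ v = x) ∧ (∀ v, g 1 v = v ↔ v = x + s) ∧
    (∀ v, g 2 v = v ↔ v = y) ∧ (∀ v, g 3 v = v ↔ v = y + s) ∧
    (∀ i v, g i v ≠ v → g i v = v + s ∨ g i v = v - s ∨ g i v = v + s' ∨ g i v = v - s') ∧
    (∀ v i j, i ≠ j → g i v ≠ g j v) ∧
    (∀ i, g i x ≠ x + s ∧ g i (x + s) ≠ x ∧ g i y ≠ y + s ∧ g i (y + s) ≠ y)

/-! ### One layer -/

/-- corners of the parallelogram number j: x, x+s, x+t, x+s+t -/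
def corner {p m : ℕ} (s t x : Fin m → ZMod p) (j : Fin m) (i : Fin 4) : ZMod p :=
  x j + (if i = 1 ∨ i = 3 then s j else 0) + (if i = 2 ∨ i = 3 then t j else 0)

/-- LAYER (prove LOC implies LAYER).  Proof: F (some (j,i)) = g_j i with g_j from LOC for
(s j, s' j, x j, y = x j + t j); F none exchanges corner j 0 with corner j 1 and corner j 2 with
corner j 3 for all j and fixes everything else (well defined since the corners are all distinct:
t j <> 0, s j, -s j).  Injectivity of c to F c v: same j: LOC; different j, both not fixing v: the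
differences F c v - v lie in the disjoint sets {s j, -s j, s' j, -s' j}; both fixing v: v would be a
corner of two parallelograms; none against some (j,i): if F none v = v then v is no corner; otherwise
v is a corner of some j0 and F none v = v + s j0 or v - s j0 is its partner: for j <> j0 differences
are in disjoint sets, for j = j0 use the last clause of LOC; and v fixed by some (j,i) is moved by
none. -/
def LAYER : Prop := ∀ (p m : ℕ) [Fact p.Prime] (s s' t x : Fin m → ZMod p),
  (∀ j, s j ≠ 0 ∧ s' j ≠ 0 ∧ s' j ≠ s j ∧ s' j ≠ - s j) →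
  (∀ i j, i ≠ j → s i ≠ s j ∧ s i ≠ - s j ∧ s' i ≠ s' j ∧ s' i ≠ - s' j ∧ s i ≠ s' j ∧
    s i ≠ - s' j) →
  (∀ j, t j ≠ 0 ∧ t j ≠ s j ∧ t j ≠ - s j) →
  (∀ i j, i ≠ j → ∀ a b, corner s t x i a ≠ corner s t x j b) →
  ∃ F : Option (Fin m × Fin 4) → ZMod p → ZMod p,
    (∀ c v, F c (F c v) = v) ∧
    (∀ v, F none v = v ↔ ∀ j i, v ≠ corner s t x j i) ∧
    (∀ j i v, F (some (j, i)) v = v ↔ v = corner s t x j i) ∧
    (∀ c v, F c v ≠ v → ∃ j, F c v = v + s j ∨ F c v = v - s j ∨ F c v = v + s' j ∨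
      F c v = v - s' j) ∧
    (∀ v, Function.Injective (fun c => F c v))

/-! ### From perfect matchings to a colouring -/

/-- EC.  Proof: for an edge e = {v,w} choose c with f c v = w (hsur); it is unique (hinj) and does not
depend on the order (involution). -/
def EC : Prop := ∀ (V C : Type) [Nonempty C] (G : SimpleGraph V) (f : C → V → V),
  (∀ c v, f c (f c v) = v) → (∀ v, Function.Injective (fun c => f c v)) →
  (∀ v w, G.Adj v w → ∃ c, f c v = w) →
  ∃ col : Sym2 V → C, ∀ e ∈ G.edgeSet, ∀ e' ∈ G.edgeSet, e ≠ e' → (∃ v, v ∈ e ∧ v ∈ e') →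
    col e ≠ col e'

end Pool.Agent.W2helper66.XP
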